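import Pool.Agent.L5lead.NC.Defs

/-!
G5'': many layers. From the step (gates and close, G5') and the extension by a joined pair of
ports (G3) we get, for every `L`, a net whose weights are multiplied by
`∑ z < 2 ^ L, τ ^ (z ^ 2) * (∏ a * ∏ c) ^ z`.
-/

set_option autoImplicit false

namespace L5helper58.NC

open Finset MvPolynomial L5lead.NC

/-- statement of G3 -/
def ExtendStmt : Prop :=
  ∀ {ι : Type} {α β : Type} [Fintype α] [Fintype β] [DecidableEq α] [DecidableEq β] {p : ℕ}
    {w : Finset α → Finset β → MvPolynomial ι ℂ}, Rep α β p w →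
    Rep (Option α) (Option β) p
      (fun S T => if (none ∈ S ↔ none ∈ T) then w S.eraseNone T.eraseNone else 0)

/-- statement of G5' -/
def StepStmt : Prop :=
  ∀ {ι : Type} {α β : Type} [Fintype α] [Fintype β] [DecidableEq α] [DecidableEq β] {p : ℕ}
    {w : Finset (Option α) → Finset (Option β) → MvPolynomial ι ℂ},
    Rep (Option α) (Option β) p w → ∀ (a : β → ℂ) (c : α → ℂ) (mu : ℂ),
    (∀ i, a i ≠ 0) → (∀ j, c j ≠ 0) → mu ≠ 0 →
    ∃ K : ℂ, K ≠ 0 ∧ Rep α β (p + 2 * Fintype.card α + 2 * Fintype.card β + 2)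
      (fun S T => C K * (w (S.map .some) (T.map .some) +
        C (mu * (∏ i ∈ T, a i) * ∏ j ∈ S, c j) * w S.insertNone T.insertNone))

theorem sum_range_two_pow_succ (L : ℕ) (f : ℕ → ℂ) :
    ∑ z ∈ range (2 ^ (L + 1)), f z = ∑ z ∈ range (2 ^ L), (f (2 * z) + f (2 * z + 1)) := by
  rw [pow_succ, mul_comm]
  induction 2 ^ L with
  | zero => simp
  | succ n ih =>
    rw [Nat.mul_succ, sum_range_succ, sum_range_succ, sum_range_succ _ n, ih]
    ring

theorem multi_of (hE : ExtendStmt) (hS : StepStmt) : ∀ (L : ℕ) {ι : Type} {α β : Type}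
    [Fintype α] [Fintype β] [DecidableEq α] [DecidableEq β] {p : ℕ}
    {w : Finset α → Finset β → MvPolynomial ι ℂ}, Rep α β p w →
    ∀ (a : β → ℂ) (c : α → ℂ) (τ : ℂ), (∀ i, a i ≠ 0) → (∀ j, c j ≠ 0) → τ ≠ 0 →
    ∃ K : ℂ, K ≠ 0 ∧ Rep α β
      (p + L * (2 * Fintype.card α + 2 * Fintype.card β) + 2 * L ^ 2)
      (fun S T => C K * C (∑ z ∈ range (2 ^ L), τ ^ (z ^ 2) *
        ((∏ i ∈ T, a i) * ∏ j ∈ S, c j) ^ z) * w S T) := by
  intro L
  induction L with
  | zero =>
    intro ι α β _ _ _ _ p w h a c τ ha hc hτ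
    refine ⟨1, one_ne_zero, ?_⟩
    simpa using h
  | succ L ih =>
    intro ι α β _ _ _ _ p w h a c τ ha hc hτ
    obtain ⟨K₁, hK₁, h1⟩ := ih (hE h) (fun o : Option β => o.elim (τ ^ 4) fun i => a i ^ 2)
      (fun o : Option α => o.elim 1 fun j => c j ^ 2) (τ ^ 4)
      (by rintro (_ | i) <;> simp [hτ, ha]) (by rintro (_ | i) <;> simp [hc])
      (pow_ne_zero _ hτ)
    obtain ⟨K₂, hK₂, h2⟩ := hS h1 a c τ ha hc hτ
    refine ⟨K₂ * K₁, mul_ne_zero hK₂ hK₁, ?_⟩
    have hsize : p + L * (2 * Fintype.card (Option α) + 2 * Fintype.card (Option β)) + 2 * L ^ 2 +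
        2 * Fintype.card α + 2 * Fintype.card β + 2 =
        p + (L + 1) * (2 * Fintype.card α + 2 * Fintype.card β) + 2 * (L + 1) ^ 2 := by
      rw [Fintype.card_option, Fintype.card_option]
      ring
    rw [hsize] at h2
    convert h2 using 1
    funext S T
    have e1 : (none : Option α) ∉ S.map .some := by simp
    have e2 : (none : Option β) ∉ T.map .some := by simp
    have e3 : (none : Option α) ∈ S.insertNone := by simp
    have e4 : (none : Option β) ∈ T.insertNone := by simp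
    rw [if_pos (iff_of_false e1 e2), if_pos (iff_of_true e3 e4), Finset.eraseNone_map_some,
      Finset.eraseNone_map_some, Finset.eraseNone_insertNone, Finset.eraseNone_insertNone,
      Finset.prod_map, Finset.prod_map, Finset.prod_insertNone, Finset.prod_insertNone,
      sum_range_two_pow_succ]
    simp only [Function.Embedding.some_apply, Option.elim_some, Option.elim_none, Finset.prod_pow]
    set A := ∏ i ∈ T, a i
    set B := ∏ j ∈ S, c j
    have key : ∑ z ∈ range (2 ^ L), (τ ^ ((2 * z) ^ 2) * (A * B) ^ (2 * z) +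
          τ ^ ((2 * z + 1) ^ 2) * (A * B) ^ (2 * z + 1)) =
        ∑ z ∈ range (2 ^ L), (τ ^ 4) ^ (z ^ 2) * (A ^ 2 * B ^ 2) ^ z +
          (τ * A * B) * ∑ z ∈ range (2 ^ L), (τ ^ 4) ^ (z ^ 2) *
            (τ ^ 4 * A ^ 2 * (1 * B ^ 2)) ^ z := by
      rw [Finset.mul_sum, ← Finset.sum_add_distrib]
      refine Finset.sum_congr rfl fun z _ => ?_
      ring
    rw [key]
    simp only [map_add, map_mul]
    ring

end L5helper58.NC
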